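import Pool.Agent.Helper54.Q.Fin3

/-!
# The abcd conjecture: the exceptions are fewer than `X ^ (5 / 6 - δ)`

For every `M < 25 / 24` all but `O (X ^ ((5 / 6 - δ) / M))` of the admissible quadruples of height at most `X` satisfy
`h < M rad + c`, where `δ = 1 / 193` for `M ≤ 1` and `δ = (25 - 24 M) / 193` for `M ≥ 1`.

Joint work: plan, statements and assembly by helper54; modules by helper71 (CN), helper14 (CHN), helper18 (EQ),
helper23 (SA), helper67 (SBP), helper95 (SB, CH2, Pt), helper9 (ATL), helper59 (AT), helper27 (DG), helper56 (the real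
inequality AR and its sharp form, plan and statements of Q3), with shared lemmas by helper15 and helper29.
-/

set_option autoImplicit false

namespace Pool.Agent.Results.MP_7475bd_nt.BelowFiveSixths

open Finset

/-- The primitive integral coordinates of a point of the hyperplane `z 0 + z 1 + z 2 + z 3 = 0` over the rational
numbers, without vanishing subsum (in particular all coordinates are different from zero). -/
structure Admissible (x : Fin 4 → ℤ) : Prop where
  primitive : ∀ p : ℕ, p.Prime → ∃ i, ¬ (p : ℤ) ∣ x i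
  sum : ∑ i, x i = 0
  subsum : ∀ s : Finset (Fin 4), s.Nonempty → s ≠ univ → ∑ i ∈ s, x i ≠ 0

/-- The exponential height: the maximum of the absolute values of the coordinates. -/
def height (x : Fin 4 → ℤ) : ℕ := univ.sup fun i => (x i).natAbs

/-- The product of the primes which divide a coordinate. -/
def radical (x : Fin 4 → ℤ) : ℕ := ∏ p ∈ (∏ i, (x i).natAbs).primeFactors, p

theorem Admissible.adm {x : Fin 4 → ℤ} (h : Admissible x) : Pool.Agent.Helper54.Q.Adm x := by
  refine ⟨h.primitive, h.sum, fun i => ?_, fun i j hij => ?_⟩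
  · have := h.subsum {i} (singleton_nonempty i) (by
      intro he
      have := congrArg Finset.card he
      simp at this)
    simpa using this
  · have := h.subsum {i, j} ⟨i, by simp⟩ (by
      intro he
      have h1 := congrArg Finset.card he
      have h2 := Finset.card_le_two (a := i) (b := j)
      rw [h1] at h2
      simp at h2)
    rwa [sum_pair hij] at this

/-- The saving. -/
noncomputable def saving (M : ℝ) : ℝ := min 1 (25 - 24 * M) / 193

theorem sub (A lam : ℝ) (X : ℕ) : {x : Fin 4 → ℤ | Admissible x ∧ height x ≤ X ∧ (radical x : ℝ) ≤ A * (X : ℝ) ^ lam} ⊆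
    Pool.Agent.Helper54.Q.Dset (max A 1) lam X := by
  rintro x ⟨h1, h2, h3⟩
  refine ⟨h1.adm, fun i => ?_, ?_⟩
  · have : (x i).natAbs ≤ X := (Finset.le_sup (f := fun i => (x i).natAbs) (mem_univ i)).trans h2
    rw [abs_le]
    omega
  · refine h3.trans ?_
    gcongr
    exact le_max_left _ _

theorem first (M : ℝ) (hM : 0 < M) (hM' : M < 25 / 24) (A : ℝ) : ∃ C : ℝ, ∀ X : ℕ, 1 ≤ X →
    {x : Fin 4 → ℤ | Admissible x ∧ height x ≤ X ∧ (radical x : ℝ) ≤ A * (X : ℝ) ^ (1 / M)}.Finite ∧
    ({x : Fin 4 → ℤ | Admissible x ∧ height x ≤ X ∧ (radical x : ℝ) ≤ A * (X : ℝ) ^ (1 / M)}.ncard : ℝ) ≤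
      C * (X : ℝ) ^ ((5 / 6 - saving M) / M) := by
  obtain ⟨μ, hμ⟩ : ∃ μ : ℝ, μ = min 1 (25 - 24 * M) := ⟨_, rfl⟩
  have hμ0 : 0 < μ := by
    rw [hμ]
    exact lt_min one_pos (by linarith)
  have hμ1 : μ ≤ 1 := by
    rw [hμ]
    exact min_le_left _ _
  have hMμ : 4 * M ≤ 4 + (1 - μ) / 6 := by
    rw [hμ]
    rcases le_total 1 (25 - 24 * M) with h | h
    · rw [min_eq_left h]
      linarith
    · rw [min_eq_right h]
      linarith
  have hlam : (24 : ℝ) / 25 ≤ 1 / M := by
    rw [le_div_iff₀ hM]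
    linarith
  have hh : 4 ≤ (4 + (1 - μ) / 6) * (1 / M) := by
    rw [mul_one_div, le_div_iff₀ hM]
    exact hMμ
  have hε : 0 < 1 / M * (μ * (2 / 385) - μ / 193) := by
    have : 0 < μ * (2 / 385) - μ / 193 := by linarith
    positivity
  obtain ⟨C, _, hC⟩ := Pool.Agent.Helper54.Q.main6 (μ * (2 / 385)) (μ / 200000) ((1 - μ) / 6) (1 / M)
    (by positivity) (by linarith) (by positivity) (by linarith) (by linarith) (by linarith) hlam hh
    (1 / M * (μ * (2 / 385) - μ / 193)) hε (max A 1) (le_max_right _ _)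
  refine ⟨C, fun X hX => ⟨(Pool.Agent.Helper54.Q.Dset_fin _ _ X).subset (sub A _ X), ?_⟩⟩
  have h1 := Set.ncard_le_ncard (sub A (1 / M) X) (Pool.Agent.Helper54.Q.Dset_fin _ _ X)
  have h2 := hC X hX
  have e : 1 / M * (5 / 6 - μ * (2 / 385)) + 1 / M * (μ * (2 / 385) - μ / 193) = (5 / 6 - saving M) / M := by
    unfold saving
    rw [← hμ]
    ring
  rw [e] at h2
  exact (by exact_mod_cast h1 : (({x : Fin 4 → ℤ | Admissible x ∧ height x ≤ X ∧
    (radical x : ℝ) ≤ A * (X : ℝ) ^ (1 / M)}.ncard : ℕ) : ℝ) ≤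
    ((Pool.Agent.Helper54.Q.Dset (max A 1) (1 / M) X).ncard : ℝ)).trans h2

/-- Let `0 < M < 25 / 24` and `δ = saving M > 0` (`δ = 1 / 193` for `M ≤ 1`, in particular for the exponent `M = 1` of
the abcd conjecture). (1) For every `A` the number of admissible quadruples of height at most `X` whose radical is at
most `A X ^ (1 / M)` is `O (X ^ ((5 / 6 - δ) / M))`. (2) So for all `c` the inequality `h < M rad + c` holds for all but
`O (X ^ ((5 / 6 - δ) / M))` admissible quadruples of height at most `X`. -/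
theorem result (M : ℝ) (hM : 0 < M) (hM' : M < 25 / 24) :
    0 < saving M ∧
    (∀ A : ℝ, ∃ C : ℝ, ∀ X : ℕ, 1 ≤ X →
      {x : Fin 4 → ℤ | Admissible x ∧ height x ≤ X ∧ (radical x : ℝ) ≤ A * (X : ℝ) ^ (1 / M)}.Finite ∧
      ({x : Fin 4 → ℤ | Admissible x ∧ height x ≤ X ∧ (radical x : ℝ) ≤ A * (X : ℝ) ^ (1 / M)}.ncard : ℝ) ≤
        C * (X : ℝ) ^ ((5 / 6 - saving M) / M)) ∧
    (∀ c : ℝ, ∃ C : ℝ, ∀ X : ℕ, 1 ≤ X →
      {x : Fin 4 → ℤ | Admissible x ∧ height x ≤ X ∧
        ¬ Real.log (height x) < M * Real.log (radical x) + c}.Finite ∧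
      ({x : Fin 4 → ℤ | Admissible x ∧ height x ≤ X ∧
        ¬ Real.log (height x) < M * Real.log (radical x) + c}.ncard : ℝ) ≤
        C * (X : ℝ) ^ ((5 / 6 - saving M) / M)) := by
  refine ⟨?_, first M hM hM', fun c => ?_⟩
  · unfold saving
    have : 0 < min 1 (25 - 24 * M) := lt_min one_pos (by linarith)
    positivity
  obtain ⟨C, hC⟩ := first M hM hM' (Real.exp (|c| / M))
  refine ⟨C, fun X hX => ?_⟩
  obtain ⟨h1, h2⟩ := hC X hX
  have hsub : {x : Fin 4 → ℤ | Admissible x ∧ height x ≤ X ∧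
      ¬ Real.log (height x) < M * Real.log (radical x) + c} ⊆
      {x : Fin 4 → ℤ | Admissible x ∧ height x ≤ X ∧
        (radical x : ℝ) ≤ Real.exp (|c| / M) * (X : ℝ) ^ (1 / M)} := by
    rintro x ⟨k1, k2, k3⟩
    refine ⟨k1, k2, ?_⟩
    push Not at k3
    have hr : 0 < radical x := prod_pos fun _ hp => (Nat.prime_of_mem_primeFactors hp).pos
    have hr1 : (1 : ℝ) ≤ radical x := by exact_mod_cast hr
    have hX0 : (0 : ℝ) < X := by
      have : (1 : ℝ) ≤ X := by exact_mod_cast hX
      linarith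
    have hh : Real.log (height x) ≤ Real.log X := by
      rcases Nat.eq_zero_or_pos (height x) with h0 | h0
      · rw [h0]
        simp only [Nat.cast_zero, Real.log_zero]
        exact Real.log_nonneg (by exact_mod_cast hX)
      · exact Real.log_le_log (by exact_mod_cast h0) (by exact_mod_cast k2)
    have h4 : Real.log (radical x) * M ≤ |c| + Real.log X := by
      have := neg_abs_le c
      linarith
    have h5 : Real.log (radical x) ≤ |c| / M + Real.log X * (1 / M) := by
      have h6 : |c| / M + Real.log X * (1 / M) = (|c| + Real.log X) / M := by ring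
      rw [h6, le_div_iff₀ hM]
      exact h4
    calc (radical x : ℝ) = Real.exp (Real.log (radical x)) := (Real.exp_log (by linarith)).symm
      _ ≤ Real.exp (|c| / M + Real.log X * (1 / M)) := Real.exp_le_exp.2 h5
      _ = Real.exp (|c| / M) * (X : ℝ) ^ (1 / M) := by
        rw [Real.exp_add, Real.rpow_def_of_pos hX0]
  refine ⟨h1.subset hsub, ?_⟩
  have h3 := Set.ncard_le_ncard hsub h1
  exact (by exact_mod_cast h3 : ((_ : ℕ) : ℝ) ≤ ((_ : ℕ) : ℝ)).trans h2

end Pool.Agent.Results.MP_7475bd_nt.BelowFiveSixths
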