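import Pool.Agent.Helper80.AO.PertC

/-!
# The `ε` of the `n`-term abc conjecture is needed near every adelic point

Let `𝓗 : Z_1 + ⋯ + Z_n = 0`, `n ≥ 3`. Near every point of `𝓗(ℝ) × ∏_{p ∈ S} 𝓗(ℚ_p)`, `S` a finite set of primes, and
outside every proper Zariski closed subset of `𝓗` there are rational points `P` with nonzero coordinates, of arbitrarily
large height, and `h(P) ≥ rad(P) + log h(P) - C`; all coordinates but one are composed of fixed primes.

The proof: the coordinates `w_1, …, w_{n-1}` are numbers `r_i Q ^ a Q' ^ b`, `r_i` fixed, that approximate the given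
numbers and satisfy `w_i ≡ α_i` modulo a high power `ℓ ^ (s + 1)` of an auxiliary prime `ℓ`, where
`α_1 + ⋯ + α_{n-1} = 0`. Then `w_n = -(w_1 + ⋯ + w_{n-1})` is divisible by this power of `ℓ`. For infinitely many `s` the
lattice of the `(a, b)` with `Q ^ a Q' ^ b ≡ 1` modulo `ℓ ^ (s + 1)` contains two independent vectors with `Q ^ a Q' ^ b`
close to one and with coordinates `O(ℓ ^ s)`: else a vector which is short for one `s` would be short for all larger `s`.
So the exponents can be taken `O(ℓ ^ s)`.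
-/

set_option autoImplicit false

open MvPolynomial

namespace Pool.Agent.Results.MP_7475bd_nt.EveryAdelicOpenSet

/-- `h(P)` for the rational point `P` with integer homogeneous coordinates `z`: the sum over all
places `v` of `ℚ` of `log max |z i|_v`, that is `log max |z i| - log gcd (z i)` -/
noncomputable def height {n : ℕ} (z : Fin n → ℤ) : ℝ :=
  Real.log ((Finset.univ.sup fun i => (z i).natAbs : ℕ) : ℝ) -
    Real.log ((Finset.univ.gcd fun i => (z i).natAbs : ℕ) : ℝ)

/-- `rad(P)` for the rational point `P` with nonzero integer homogeneous coordinates `z`: the sum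
of `log p` over the primes `p` at which the `ord_p (z i)` are not all equal -/
noncomputable def radical {n : ℕ} (z : Fin n → ℤ) : ℝ :=
  ∑ p ∈ (∏ i, (z i).natAbs).primeFactors with (∃ i j, padicValInt p (z i) ≠ padicValInt p (z j)),
    Real.log p

/-- `z` are coprime integer homogeneous coordinates of a point of the hyperplane `Z_1 + ⋯ + Z_n = 0`, all of them
nonzero -/
def OnH {n : ℕ} (z : Fin n → ℤ) : Prop :=
  (Finset.univ.gcd fun i => (z i).natAbs) = 1 ∧ (∀ i, z i ≠ 0) ∧ ∑ i, z i = 0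

/-- the polynomial `F` does not vanish identically on the hyperplane `Z_1 + ⋯ + Z_n = 0` -/
def NotZeroOnH {K : Type} [Field K] {n : ℕ} (F : MvPolynomial (Fin n) K) : Prop :=
  ∃ w : Fin n → K, ∑ i, w i = 0 ∧ eval w F ≠ 0

/-- **Theorem.** Let `m ≥ 2`, so that there are `n = m + 1 ≥ 3` terms. Let `S` be a finite set of primes, `x` a real
vector and, for `p ∈ S`, `x' p` a vector over `ℚ_p`, with `n` coordinates and sum zero. Let `ε > 0` and let `F` be a complex
polynomial which does not vanish identically on `𝓗`. There are `N ≥ 1` and `C` such that for every `H` there are a point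
`P ∈ 𝓗(ℚ)` with nonzero coordinates, coprime integer coordinates `z`, and a rational number `t ≠ 0` such that `t z` differs
by less than `ε` from `x` and from `x' p`, `p ∈ S`, in every coordinate, `F(t z) ≠ 0`, all primes that divide one of
`z_1, …, z_{n-1}` divide `N`, and `h(P) ≥ H`, `h(P) ≥ rad(P) + log h(P) - C`. -/
theorem result (m : ℕ) (hm : 2 ≤ m) (S : Finset ℕ) (x : Fin (m + 1) → ℝ)
    (x' : ∀ (p : ℕ) [Fact p.Prime], Fin (m + 1) → ℚ_[p]) (hx : ∑ i, x i = 0)
    (hx' : ∀ (p : ℕ) [Fact p.Prime], p ∈ S → ∑ i, x' p i = 0) (ε : ℝ) (hε : 0 < ε)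
    (F : MvPolynomial (Fin (m + 1)) ℂ) (hF : NotZeroOnH F) :
    ∃ (N : ℕ) (C : ℝ), N ≠ 0 ∧ ∀ H : ℝ, ∃ (z : Fin (m + 1) → ℤ) (t : ℚ), OnH z ∧ t ≠ 0 ∧
      eval (fun i => ((t * z i : ℚ) : ℂ)) F ≠ 0 ∧
      (∀ i, |((t * z i : ℚ) : ℝ) - x i| < ε) ∧
      (∀ (p : ℕ) [Fact p.Prime], p ∈ S → ∀ i, ‖((t * z i : ℚ) : ℚ_[p]) - x' p i‖ < ε) ∧
      (∀ i : Fin m, ∀ p : ℕ, p.Prime → (p : ℤ) ∣ z i.castSucc → p ∣ N) ∧
      H ≤ height z ∧ radical z + Real.log (height z) ≤ height z + C := by
  obtain ⟨N, C, hN, h⟩ := Pool.Agent.Helper80.AO.part1C hm S x hx x' hx' ε hε F hF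
  refine ⟨N, C, hN, fun H => ?_⟩
  obtain ⟨z, t, h1, h2, h3, h4, h5, h6, h7, h8, h9, h10⟩ := h H
  exact ⟨z, t, ⟨h1, h2, h3⟩, h4, h5, h6, h7, h8, h9, h10⟩

end Pool.Agent.Results.MP_7475bd_nt.EveryAdelicOpenSet
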