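import Pool.Agent.Helper82.ESM.N
import Pool.Agent.Helper82.ESM.P

/-!
# The exceptional set in the `n`-term abc conjecture for many terms

Over every number field, and over `k(t)`, the degree of an exceptional set `Z(ε, n)` in the
`n`-term abc conjecture is at least `(1 + (2 m + 1).choose m) ^ (n - m - 3) - 1` for every
`m ≤ n - 3` with `ε m < 1`; its logarithm is at least `c n min (n, 1 / ε)`.

The points are the values at `x = 2 ^ q - 1` of solutions of
`∑ a_j ∏_{l ≤ m} (1 + u_l x) ^ (e_{j, l}) = 0` with `u_m = 1`, of degree `m + 1`: their height is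
at least `(m + 1) q log 2 - O(1)` and their radical at most `m q log 2 + O(1)`. A polynomial which
vanishes at all these points vanishes at all `(a_j)`. For `m + 3` of the terms we take
`(1 + x) ^ (m + 1)`, `(1 + x) ^ m` and a basis of the polynomials of degree at most `m`; for the
other `n - m - 3` terms all monomials of degree `m + 1` in the `1 + u_l x`, and `1`, are allowed.
All these choices are linear conditions, and they are seen in the lowest component of the polynomial
with respect to the coefficients of the second kind and of `(1 + x) ^ (m + 1)`: this component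
vanishes on `(1 + (2 m + 1).choose m) ^ (n - m - 3) - 1` different hyperplanes.
-/

set_option autoImplicit false

namespace Pool.Agent.Results.MP_7475bd_nt.ExceptionalSetManyTerms

open NumberField

/-- `h(P)` for a point `P` with homogeneous coordinates `z` in the number field `K`: Mathlib's
logarithmic height of `z` (the sum over all places `v` of `n_v log max |z_j|_v`), divided by
`[K : ℚ]` -/
noncomputable def height {K : Type} [Field K] [NumberField K] {n : ℕ} (z : Fin n → K) : ℝ :=
  Height.logHeight z / Module.finrank ℚ K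

open Classical in
/-- `rad(P)`: `1 / [K : ℚ]` times the sum of `log N(𝔭)` over the nonzero primes `𝔭` of `𝓞 K` at
which the orders of the coordinates are not all equal -/
noncomputable def radical {K : Type} [Field K] [NumberField K] {n : ℕ} (z : Fin n → K) : ℝ :=
  (∑ᶠ v : IsDedekindDomain.HeightOneSpectrum (𝓞 K),
    if ∀ i j, v.valuation K (z i) = v.valuation K (z j) then 0
    else Real.log (Ideal.absNorm v.asIdeal)) / Module.finrank ℚ K

/-- the order of `z` at the place `a ∈ k` of `k(t)` -/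
noncomputable def ordAt {k : Type} [Field k] (a : k) (z : RatFunc k) : ℤ :=
  (z.num.rootMultiplicity a : ℤ) - z.denom.rootMultiplicity a

/-- `h(P)` for a point `P` with homogeneous coordinates `z` in `k(t)`, `k` algebraically closed:
the sum over the places `v ∈ k ∪ {∞}` of `max_j (- ord_v z_j)`; here `- ord_∞` is the degree -/
noncomputable def heightF {k : Type} [Field k] {n : ℕ} (z : Fin n → RatFunc k) : ℤ :=
  (∑ᶠ a : k, ⨆ j, -ordAt a (z j)) + ⨆ j, (z j).intDegree

open Classical in
/-- `rad(P)`: the number of places `v ∈ k ∪ {∞}` at which the `ord_v z_j` are not all equal -/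
noncomputable def radicalF {k : Type} [Field k] {n : ℕ} (z : Fin n → RatFunc k) : ℕ :=
  {a : k | ¬ ∀ i j, ordAt a (z i) = ordAt a (z j)}.ncard +
    if ∀ i j, (z i).intDegree = (z j).intDegree then 0 else 1

/-- The points violating `h(P) < (1 + ε) rad(P) + C` lie on no hypersurface of degree at most `D`
not containing the hyperplane: for every extension field `L` of the number field `K`, every
polynomial `F` of degree at most `D` in `n` variables over `L` which does not vanish identically on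
the hyperplane `Z_1 + ⋯ + Z_n = 0`, and every `C`, there is a point `P` of the hyperplane with
nonzero coordinates in `K`, with `F(P) ≠ 0` and `h(P) ≥ (1 + ε) rad(P) + C`. -/
def Escapes (K : Type) [Field K] [NumberField K] (n : ℕ) (ε : ℝ) (D : ℕ) : Prop :=
  ∀ (L : Type) [Field L] [Algebra K L] (F : MvPolynomial (Fin n) L), F.totalDegree ≤ D →
    (∃ w : Fin n → L, ∑ i, w i = 0 ∧ MvPolynomial.eval w F ≠ 0) →
      ∀ C : ℝ, ∃ z : Fin n → K, (∀ i, z i ≠ 0) ∧ ∑ i, z i = 0 ∧
        MvPolynomial.eval (fun i => algebraMap K L (z i)) F ≠ 0 ∧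
        (1 + ε) * radical z + C ≤ height z

/-- the same over the rational function field `k(t)` -/
def EscapesF (k : Type) [Field k] (n : ℕ) (ε : ℝ) (D : ℕ) : Prop :=
  ∀ (L : Type) [Field L] [Algebra (RatFunc k) L] (F : MvPolynomial (Fin n) L),
    F.totalDegree ≤ D → (∃ w : Fin n → L, ∑ i, w i = 0 ∧ MvPolynomial.eval w F ≠ 0) →
      ∀ C : ℝ, ∃ z : Fin n → RatFunc k, (∀ i, z i ≠ 0) ∧ ∑ i, z i = 0 ∧
        MvPolynomial.eval (fun i => algebraMap (RatFunc k) L (z i)) F ≠ 0 ∧
        (1 + ε) * radicalF z + C ≤ heightF z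

theorem escapes {K : Type} [Field K] [NumberField K] {n m D : ℕ} {ε : ℝ} (hε : 0 < ε)
    (hεm : ε * m < 1) (hn : m + 3 ≤ n)
    (hD : D + 1 < (1 + (2 * m + 1).choose m) ^ (n - m - 3)) : Escapes K n ε D := by
  intro L _ _ F hF hw C
  rw [add_comm 1 ((2 * m + 1).choose m)] at hD
  exact Pool.Agent.Helper82.ESM.nf hn hε hεm F hw (by omega) C

theorem escapesF {k : Type} [Field k] [CharZero k] {n m D : ℕ} {ε : ℝ} (hε : 0 < ε)
    (hεm : ε * m < 1) (hn : m + 3 ≤ n)
    (hD : D + 1 < (1 + (2 * m + 1).choose m) ^ (n - m - 3)) : EscapesF k n ε D := by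
  intro L _ _ F hF hw C
  rw [add_comm 1 ((2 * m + 1).choose m)] at hD
  exact Pool.Agent.Helper82.ESM.ff hn hε hεm F hw (by omega) C

theorem two_pow_le (m : ℕ) : 2 ^ (m + 1) ≤ 1 + (2 * m + 1).choose m := by
  induction m with
  | zero => simp
  | succ m ih =>
    have h1 : (2 * (m + 1) + 1).choose (m + 1) = (2 * m + 2).choose m + (2 * m + 2).choose (m + 1) := by
      rw [show 2 * (m + 1) + 1 = 2 * m + 2 + 1 by ring, Nat.choose_succ_succ]
    have h2 : (2 * m + 2).choose (m + 1) = (2 * m + 1).choose m + (2 * m + 1).choose (m + 1) := by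
      rw [show 2 * m + 2 = 2 * m + 1 + 1 by ring, Nat.choose_succ_succ]
    have h3 : (2 * m + 1).choose (m + 1) = (2 * m + 1).choose m := by
      rw [show 2 * m + 1 = (m + 1) + m by ring, Nat.choose_symm_add]
    have h4 : 1 ≤ (2 * m + 2).choose m := Nat.choose_pos (by omega)
    rw [pow_succ]
    omega

theorem exists_m {n D : ℕ} (hn : 3 ≤ n) {ε : ℝ} (hε : 0 < ε)
    (hD : (D : ℝ) + 1 < 2 ^ (((n : ℝ) - 3) / 4 * min (2 / ε) ((n : ℝ) - 2))) :
    ∃ m : ℕ, ε * m < 1 ∧ m + 3 ≤ n ∧ D + 1 < (1 + (2 * m + 1).choose m) ^ (n - m - 3) := by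
  have hpos : 0 < 1 / ε := by positivity
  have h1 : 0 < ⌈1 / ε⌉₊ := Nat.ceil_pos.2 hpos
  have h2 : (⌈1 / ε⌉₊ : ℝ) < 1 / ε + 1 := Nat.ceil_lt_add_one hpos.le
  have h3 : 1 / ε ≤ (⌈1 / ε⌉₊ : ℝ) := Nat.le_ceil _
  obtain ⟨M, hM⟩ : ∃ M, ⌈1 / ε⌉₊ = M + 1 := ⟨⌈1 / ε⌉₊ - 1, by omega⟩
  rw [hM] at h2 h3
  push_cast at h2 h3
  obtain ⟨m, hm⟩ : ∃ m, m = min M ((n - 3) / 2) := ⟨_, rfl⟩
  have hm1 : m ≤ M := by rw [hm]; exact min_le_left _ _
  have hm2 : m ≤ (n - 3) / 2 := by rw [hm]; exact min_le_right _ _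
  have hm3 : 2 * m + 3 ≤ n := by omega
  have hm1' : (m : ℝ) ≤ M := by exact_mod_cast hm1
  have hm3' : 2 * (m : ℝ) + 3 ≤ n := by exact_mod_cast hm3
  refine ⟨m, ?_, by omega, ?_⟩
  · have h4 : (m : ℝ) < 1 / ε := by linarith
    have h5 : ε * (m : ℝ) < ε * (1 / ε) := mul_lt_mul_of_pos_left h4 hε
    rwa [mul_one_div_cancel hε.ne'] at h5
  · have h4 : min (2 / ε) ((n : ℝ) - 2) ≤ 2 * ((m : ℝ) + 1) := by
      rcases le_total M ((n - 3) / 2) with h | h
      · rw [min_eq_left h] at hm
        refine (min_le_left _ _).trans ?_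
        rw [hm]
        have h5 : 2 / ε = 2 * (1 / ε) := by ring
        rw [h5]
        linarith
      · rw [min_eq_right h] at hm
        refine (min_le_right _ _).trans ?_
        have h5 : n ≤ 2 * m + 4 := by omega
        have h6 : (n : ℝ) ≤ 2 * m + 4 := by exact_mod_cast h5
        linarith
    have h5 : ((n : ℝ) - 3) / 4 * min (2 / ε) ((n : ℝ) - 2) ≤
        (((m + 1) * (n - m - 3) : ℕ) : ℝ) := by
      have h6 : ((n - m - 3 : ℕ) : ℝ) = (n : ℝ) - m - 3 := by
        rw [Nat.sub_sub, Nat.cast_sub (by omega)]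
        push_cast
        ring
      rw [Nat.cast_mul, h6]
      push_cast
      have h7 : 0 ≤ ((n : ℝ) - 3) / 4 := by linarith
      have h8 := mul_le_mul_of_nonneg_left h4 h7
      have h9 : ((n : ℝ) - 3) / 2 ≤ (n : ℝ) - m - 3 := by linarith
      have h10 : (0 : ℝ) ≤ (m : ℝ) + 1 := by positivity
      have h11 := mul_le_mul_of_nonneg_left h9 h10
      nlinarith
    have h6 : ((D + 1 : ℕ) : ℝ) < ((2 ^ ((m + 1) * (n - m - 3)) : ℕ) : ℝ) := by
      push_cast
      refine lt_of_lt_of_le hD ?_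
      rw [← Real.rpow_natCast]
      exact Real.rpow_le_rpow_of_exponent_le (by norm_num) h5
    have h7 : D + 1 < 2 ^ ((m + 1) * (n - m - 3)) := by exact_mod_cast h6
    refine lt_of_lt_of_le h7 ?_
    rw [pow_mul]
    exact Nat.pow_le_pow_left (two_pow_le m) _

/-- **Main theorem.** Let `ε > 0`, `m ≥ 0` with `ε m < 1`, `n ≥ m + 3`, and
`D + 1 < (1 + (2 m + 1).choose m) ^ (n - m - 3)`. Then the points of the hyperplane
`Z_1 + ⋯ + Z_n = 0` violating `h(P) < (1 + ε) rad(P) + C` lie on no hypersurface of degree at most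
`D` not containing the hyperplane, (1) over every number field `K`; (2) over `k(t)`, `k`
algebraically closed of characteristic `0`. (3) In particular this holds if
`D + 1 < 2 ^ ((n - 3) / 4 * min (2 / ε, n - 2))`. -/
theorem result :
    (∀ (n m D : ℕ) (ε : ℝ), 0 < ε → ε * m < 1 → m + 3 ≤ n →
      D + 1 < (1 + (2 * m + 1).choose m) ^ (n - m - 3) →
        (∀ (K : Type) [Field K] [NumberField K], Escapes K n ε D) ∧
        (∀ (k : Type) [Field k] [IsAlgClosed k] [CharZero k], EscapesF k n ε D)) ∧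
    (∀ (n D : ℕ) (ε : ℝ), 0 < ε → 3 ≤ n →
      (D : ℝ) + 1 < 2 ^ (((n : ℝ) - 3) / 4 * min (2 / ε) ((n : ℝ) - 2)) →
        (∀ (K : Type) [Field K] [NumberField K], Escapes K n ε D) ∧
        (∀ (k : Type) [Field k] [IsAlgClosed k] [CharZero k], EscapesF k n ε D)) := by
  refine ⟨fun n m D ε hε hεm hn hD => ⟨fun K _ _ => escapes hε hεm hn hD,
    fun k _ _ _ => escapesF hε hεm hn hD⟩, fun n D ε hε hn hD => ?_⟩
  obtain ⟨m, hεm, hm, hD'⟩ := exists_m hn hε hD
  exact ⟨fun K _ _ => escapes hε hεm hm hD', fun k _ _ _ => escapesF hε hεm hm hD'⟩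

end Pool.Agent.Results.MP_7475bd_nt.ExceptionalSetManyTerms
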