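import Pool.Agent.Helper8.RX.App
import Pool.Agent.Helper8.RX.Low
import Pool.Agent.Helper8.RX.Upp
import Pool.Agent.Helper8.RX.SPL
import Pool.Agent.Helper8.RX.Ffa
import Pool.Agent.Helper8.RX.Ffb
import Pool.Agent.Helper8.RX.FFC
import Pool.Agent.Helper8.RX.Desc
import Pool.Agent.Helper8.RX.Spc
import Pool.Agent.Helper8.RX.Inst

/-!
# The abcd conjecture for `F` implies the abcd conjecture for `k(t)`

`F` is a number field and `k` a field between `F` and a purely transcendental extension of `F`, for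
instance `k = F`. We show that Q1 for `F` (any `n` and `ε`) implies Q1 for the function field `k(t)`,
with the same exceptional set, and in the sharper form `h ≤ (1 + ε) (rad - 2)`. The proof is a theorem
without hypotheses: for a map of degree `D` from the projective line to `ℙ^(n-1)` over `F` with some
zero coordinate at `q` points of the line, no inequality `h ≤ κ rad + C` with `D > κ (q - 2)` holds.
If the abc conjecture for `F` (the case `n = 3`) holds, the exponent `D / (q - 2)` is attained.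

Proof of the theorem: if all `q` points are rational one takes parameters `s = (α - 2 ^ k β) / (1 - 2 ^ k)`
(or `s = α + 2 ^ k`) near two of them. Otherwise some of them are the roots of a polynomial `G` without
roots in `F`; there is a prime `v` of `F` such that `G` has a root in the completion at `v`, and one takes
good approximations `s` of this root, in the sense of Dirichlet and Thue: the product of the `v`-adic
absolute value of `G(s)` and the square of the height of `s` is bounded. For `k(t)` the constants are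
specialised in `F`.

The modules in `Helper8/RX` were proved by helper40 (Thue, Gain), helper26 (Hens), helper57 (SPL),
helper71 (Upp), helper11 (Ffa), helper6 (Ffb), helper25 (FFC) and helper67 (Inst).
-/

set_option autoImplicit false
set_option maxHeartbeats 1000000

namespace Pool.Agent.Results.MP_7475bd_nt.NumberFieldToFunctionField

open NumberField IsDedekindDomain Module Polynomial Height

/-! ### points over a number field -/

section

variable {K : Type} [Field K] [NumberField K]

/-- the height `h(P)` of a point `P` with coordinates in `K` (absolute, logarithmic) -/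
noncomputable def ht {n : ℕ} (z : Fin n → K) : ℝ := logHeight z / finrank ℚ K

open Classical in
/-- `rad(P)`: the sum of `log N(v) / [K : ℚ]` over the primes `v` of `K` at which the orders of the
coordinates are not all equal -/
noncomputable def rad {n : ℕ} (z : Fin n → K) : ℝ :=
  (∑ᶠ v : HeightOneSpectrum (𝓞 K), if ∃ i j, v.valuation K (z i) ≠ v.valuation K (z j) then
    Real.log (Ideal.absNorm v.asIdeal : ℝ) else 0) / finrank ℚ K

end

/-- Q1 for the number field `K` and given `n` and `ε`: the exceptional set is the set of the common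
zeros of the forms in `𝒢`, one of which does not vanish on the hyperplane -/
def Q1NumberField (K : Type) [Field K] [NumberField K] (n : ℕ) (ε : ℝ) : Prop :=
  ∃ 𝒢 : Set (MvPolynomial (Fin n) K), (∀ G ∈ 𝒢, ∃ d, G.IsHomogeneous d) ∧
    (∃ G ∈ 𝒢, ∃ z : Fin n → K, ∑ i, z i = 0 ∧ MvPolynomial.eval z G ≠ 0) ∧
    ∃ C : ℝ, ∀ z : Fin n → K, (∀ i, z i ≠ 0) → ∑ i, z i = 0 →
      (∃ G ∈ 𝒢, MvPolynomial.eval z G ≠ 0) → ht z < (1 + ε) * rad z + C

/-! ### points over `k(t)` -/

section

variable {k : Type} [Field k]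

/-- the degree `[k_v : k]` of a finite place of `k(t)` -/
noncomputable def placeDegree (v : HeightOneSpectrum k[X]) : ℕ := finrank k (k[X] ⧸ v.asIdeal)

/-- the height of a point over `k(t)`: the sum of `deg v * max_j (- ord_v z_j)` over the finite places
and infinity (`- ord_v` is the logarithm of the valuation, and `- ord_∞` is `intDegree`) -/
noncomputable def htFF {n : ℕ} (z : Fin n → RatFunc k) : ℤ :=
  (∑ᶠ v : HeightOneSpectrum k[X],
    (placeDegree v : ℤ) * ⨆ j, WithZero.log (v.valuation (RatFunc k) (z j))) +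
  ⨆ j, (z j).intDegree

open Classical in
/-- `rad(P)` over `k(t)`: the sum of `deg v` over the places at which the orders are not all equal -/
noncomputable def radFF {n : ℕ} (z : Fin n → RatFunc k) : ℤ :=
  (∑ᶠ v : HeightOneSpectrum k[X],
    if ∃ i j, v.valuation (RatFunc k) (z i) ≠ v.valuation (RatFunc k) (z j) then
      (placeDegree v : ℤ) else 0) +
  if ∃ i j, (z i).intDegree ≠ (z j).intDegree then 1 else 0

end

/-- Q1 for the function field `k(t)` and given `n` and `ε` -/
def Q1FunctionField (k : Type) [Field k] (n : ℕ) (ε : ℝ) : Prop :=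
  ∃ 𝒢 : Set (MvPolynomial (Fin n) (RatFunc k)), (∀ G ∈ 𝒢, ∃ d, G.IsHomogeneous d) ∧
    (∃ G ∈ 𝒢, ∃ z : Fin n → RatFunc k, ∑ i, z i = 0 ∧ MvPolynomial.eval z G ≠ 0) ∧
    ∃ C : ℝ, ∀ z : Fin n → RatFunc k, (∀ i, z i ≠ 0) → ∑ i, z i = 0 →
      (∃ G ∈ 𝒢, MvPolynomial.eval z G ≠ 0) → (htFF z : ℝ) < (1 + ε) * (radFF z : ℝ) + C

/-! ### rational curves -/

/-- the abc conjecture for `F`: the case `n = 3` of Q1 (an exceptional closed subset of the line is
finite and can be absorbed in `C`) -/
def AbcThree (F : Type) [Field F] [NumberField F] : Prop :=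
  ∀ ε : ℝ, 0 < ε → ∃ C : ℝ, ∀ z : Fin 3 → F, (∀ i, z i ≠ 0) → ∑ i, z i = 0 →
    ht z ≤ (1 + ε) * rad z + C

variable {K : Type} [Field K] [NumberField K]

/-- the degree of the curve -/
def degree {n : ℕ} (P : Fin n → K[X]) : ℕ := Finset.univ.sup fun i => (P i).natDegree

open Classical in
/-- the number `q` of the points of the projective line (over an algebraic closure) at which some
coordinate vanishes: the degree of the squarefree part of the product of the `P i`, and the point at
infinity unless all `P i` have the same degree -/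
noncomputable def cusps {n : ℕ} (P : Fin n → K[X]) : ℕ :=
  (UniqueFactorizationMonoid.radical (∏ i, P i)).natDegree +
    if ∀ i j, (P i).natDegree = (P j).natDegree then 0 else 1

/-- the inequality `h ≤ (κ + ε) rad + C` for the points of the curve with parameters in `F` -/
def OnCurve (F : Type) [Field F] [Algebra F K] {n : ℕ} (P : Fin n → K[X]) (κ : ℝ) : Prop :=
  ∀ ε : ℝ, 0 < ε → ∃ C : ℝ, ∀ s : F, (∀ i, (P i).eval (algebraMap F K s) ≠ 0) →
    ht (fun i => (P i).eval (algebraMap F K s)) ≤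
      (κ + ε) * rad (fun i => (P i).eval (algebraMap F K s)) + C

open Pool.Agent.Helper8.RC Pool.Agent.Q290.NF Pool.Agent.Q245.Vk Pool.Agent.Q245.Vl

lemma rad_eq {n : ℕ} (z : Fin n → K) : rad z = wt (fun v => Rd z v) / finrank ℚ K := by
  unfold rad wt
  congr 1
  refine finsum_congr fun v => ?_
  have e : Rd z v ↔ ∃ i j, v.valuation K (z i) ≠ v.valuation K (z j) := Iff.rfl
  by_cases h : Rd z v
  · rw [ind_pos (P := fun v => Rd z v) h, if_pos (e.1 h)]
    rfl
  · rw [ind_neg (P := fun v => Rd z v) h, if_neg (fun h2 => h (e.2 h2))]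

omit [NumberField K] in
lemma degree_eq {n : ℕ} (P : Fin n → K[X]) : degree P = dgn P := rfl

omit [NumberField K] in
lemma cusps_eq {n : ℕ} (P : Fin n → K[X]) : cusps P = ptn P := rfl

lemma fin_pos (K : Type) [Field K] [NumberField K] : (0 : ℝ) < finrank ℚ K := by
  exact_mod_cast finrank_pos (R := ℚ) (M := K)

open Classical in
lemma rad_one (K : Type) [Field K] :
    (UniqueFactorizationMonoid.radical (1 : K[X])).natDegree = 0 := by
  have h : UniqueFactorizationMonoid.radical (1 : K[X]) ∣ 1 :=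
    UniqueFactorizationMonoid.radical_dvd_self
  exact natDegree_eq_zero_of_isUnit (isUnit_of_dvd_one h)

/-- the abc conjecture for `F` implies the inequality on all curves -/
lemma forward {F : Type} [Field F] [NumberField F] (K : Type) [Field K] [NumberField K]
    [Algebra F K] (h : AbcThree F) {n : ℕ} (P : Fin n → K[X]) (h0 : ∀ i, P i ≠ 0)
    (hcop : Ideal.span (Set.range P) = ⊤) (hq : 3 ≤ cusps P) :
    OnCurve F P ((degree P : ℝ) / ((cusps P : ℝ) - 2)) := by
  have hF : F0 F (fun _ => True) := by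
    apply three
    intro ε hε
    obtain ⟨C, hC⟩ := h ε hε
    refine ⟨C * finrank ℚ F, fun z hz hs => ?_⟩
    have a := hC z hz hs
    have d := fin_pos F
    unfold ht at a
    rw [rad_eq, div_le_iff₀ d] at a
    refine a.trans (le_of_eq ?_)
    field_simp
  have hn : 0 < n := by
    rcases Nat.eq_zero_or_pos n with rfl | h
    · exfalso
      rw [cusps_eq] at hq
      unfold ptn at hq
      rw [Finset.univ_eq_empty, Finset.prod_empty, if_pos (fun i => i.elim0)] at hq
      rw [rad_one K] at hq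
      omega
    · exact h
  intro ε hε
  obtain ⟨C, hC⟩ := curve_n_ht P hn h0 hcop hq (fun z => ∃ s : F, algebraMap F K s = z)
    (range_stable F K) (by
      intro ε hε
      obtain ⟨C, hC⟩ := to_range F K hF ε hε
      refine ⟨C, fun z hz h0 h1 => ?_⟩
      rw [← sum_eq]
      exact hC z hz h0 h1) ε hε
  refine ⟨C / finrank ℚ K, fun s hs => ?_⟩
  have a := hC _ ⟨s, rfl⟩ hs
  have d := fin_pos K
  unfold ht
  rw [rad_eq, div_le_iff₀ d]
  refine a.trans (le_of_eq ?_)
  rw [degree_eq, cusps_eq]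
  field_simp

/-- the curve `s ↦ (s : 1 - s : -1)` -/
noncomputable def line3 (F : Type) [Field F] : Fin 3 → F[X] := ![X, 1 - X, -1]

lemma line3_deg (F : Type) [Field F] [NumberField F] : degree (line3 F) = 1 := by
  have h1 : (1 - X : F[X]).natDegree = 1 := by
    rw [← neg_sub, natDegree_neg]
    have : (X - 1 : F[X]) = X - C 1 := by rw [C_1]
    rw [this, natDegree_X_sub_C]
  unfold degree line3
  apply le_antisymm
  · refine Finset.sup_le fun i _ => ?_
    fin_cases i
    · simp
    · simpa using h1.le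
    · simp
  · have := Finset.le_sup (f := fun i => ((![X, 1 - X, -1] : Fin 3 → F[X]) i).natDegree)
      (Finset.mem_univ (0 : Fin 3))
    simpa using this

lemma line3_cusps (F : Type) [Field F] [NumberField F] : cusps (line3 F) = 3 := by
  classical
  have h1 : (1 - X : F[X]).natDegree = 1 := by
    rw [← neg_sub, natDegree_neg]
    have : (X - 1 : F[X]) = X - C 1 := by rw [C_1]
    rw [this, natDegree_X_sub_C]
  have hX0 : (1 - X : F[X]) ≠ 0 := by
    intro h
    rw [h, natDegree_zero] at h1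
    exact zero_ne_one h1
  have hcop : IsCoprime (X : F[X]) (1 - X) := ⟨1, 1, by ring⟩
  have hprod : ∏ i, line3 F i = -(X * (1 - X) * (X + (1 - X))) := by
    unfold line3
    rw [Fin.prod_univ_three]
    simp
  have hc := count hcop (by unfold dg; rw [natDegree_X]; exact le_max_left _ _) X_ne_zero hX0
    (by rw [add_sub_cancel]; exact one_ne_zero)
  have hinf : AtInf (X : F[X]) (1 - X) := by
    unfold AtInf
    rw [add_sub_cancel, natDegree_one, natDegree_X]
    rintro ⟨-, h⟩
    exact zero_ne_one h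
  have h2 := hc.1 hinf
  have hdg : dg (X : F[X]) (1 - X) = 1 := by
    unfold dg
    rw [natDegree_X, h1, max_self]
  rw [hdg] at h2
  have h3 : (UniqueFactorizationMonoid.radical (X * (1 - X) * (X + (1 - X)) : F[X])).natDegree ≤
      2 := by
    have hne : (X * (1 - X) * (X + (1 - X)) : F[X]) ≠ 0 := by
      rw [add_sub_cancel, mul_one]
      exact mul_ne_zero X_ne_zero hX0
    refine (natDegree_le_of_dvd UniqueFactorizationMonoid.radical_dvd_self hne).trans ?_
    rw [add_sub_cancel, mul_one, natDegree_mul X_ne_zero hX0, natDegree_X, h1]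
  unfold cusps
  rw [hprod, UniqueFactorizationDomain.radical_neg, if_neg]
  · omega
  · intro h
    have := h 0 2
    unfold line3 at this
    simp at this

lemma backward {F : Type} [Field F] [NumberField F] (h : OnCurve F (line3 F) 1) :
    AbcThree F := by
  intro ε hε
  obtain ⟨C, hC⟩ := h ε hε
  refine ⟨C, fun z hz hs => ?_⟩
  rw [Fin.sum_univ_three] at hs
  have h2 := hz 2
  have e : ∀ i, ((line3 F) i).eval (algebraMap F F (-(z 0) / z 2)) = (-(z 2)⁻¹) * z i := by
    intro i
    unfold line3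
    rw [Algebra.algebraMap_self, RingHom.id_apply]
    fin_cases i
    · simp only [Fin.zero_eta, Matrix.cons_val_zero, eval_X]
      field_simp
    · simp only [Fin.mk_one, Matrix.cons_val_one, Matrix.cons_val_zero, eval_sub, eval_one, eval_X]
      field_simp
      linear_combination hs
    · show (-1 : F[X]).eval _ = -(z 2)⁻¹ * z 2
      rw [eval_neg, eval_one]
      field_simp
  have hc0 : -(z 2)⁻¹ ≠ 0 := neg_ne_zero.2 (inv_ne_zero h2)
  have a := hC (-(z 0) / z 2) (fun i => by
    rw [e]
    exact mul_ne_zero hc0 (hz i))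
  have e2 : (fun i => ((line3 F) i).eval (algebraMap F F (-(z 0) / z 2))) = (-(z 2)⁻¹) • z := by
    funext i
    rw [e]
    rfl
  rw [e2] at a
  have e3 : ht ((-(z 2)⁻¹) • z) = ht z := by
    unfold ht
    rw [logHeight_smul_eq_logHeight z hc0]
  have e4 : rad ((-(z 2)⁻¹) • z) = rad z := by
    rw [rad_eq, rad_eq]
    congr 2
    funext v
    apply propext
    have hv0 : v.valuation F (-(z 2)⁻¹) ≠ 0 := (Valuation.ne_zero_iff _).2 hc0
    unfold Rd
    simp only [Pi.smul_apply, smul_eq_mul, map_mul]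
    constructor
    · rintro ⟨i, j, hij⟩
      exact ⟨i, j, fun h => hij (by rw [h])⟩
    · rintro ⟨i, j, hij⟩
      exact ⟨i, j, fun h => hij (mul_left_cancel₀ hv0 h)⟩
  rwa [e3, e4] at a

open Pool.Agent.Helper8.RX

lemma htFF_eq {k : Type} [Field k] {n : ℕ} (z : Fin n → RatFunc k) : htFF z = hff z := rfl

lemma radFF_eq {k : Type} [Field k] {n : ℕ} (z : Fin n → RatFunc k) : radFF z = radff z := rfl

/-- the unconditional lower bound for the exponent -/
lemma exponent {n : ℕ} (P : Fin n → K[X]) (h0 : ∀ i, P i ≠ 0)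
    (hcop : Ideal.span (Set.range P) = ⊤) (hD : 1 ≤ degree P) (κ C : ℝ) (E : Set K)
    (hE : E.Finite) (h : ∀ s : K, s ∉ E → (∀ i, (P i).eval s ≠ 0) →
      ht (fun i => (P i).eval s) ≤ κ * rad (fun i => (P i).eval s) + C) :
    (degree P : ℝ) ≤ κ * ((cusps P : ℝ) - 2) := by
  have d := fin_pos K
  have key : ∀ κ' : ℝ, 0 ≤ κ' → κ ≤ κ' → (degree P : ℝ) ≤ κ' * ((cusps P : ℝ) - 2) := by
    intro κ' h1 h2
    rw [degree_eq, cusps_eq]
    refine lower upp spl2 spl1 gain (app thue HENS.main gain) P h0 hcop hD κ' h1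
      (C * finrank ℚ K) E hE fun s hs hPs => ?_
    have a := h s hs hPs
    unfold ht at a
    rw [rad_eq, div_le_iff₀ d] at a
    have b := mul_le_mul_of_nonneg_right h2 (wt_nonneg (fun v => Rd (fun i => (P i).eval s) v))
    refine a.trans ?_
    have e : (κ * (wt (fun v => Rd (fun i => (P i).eval s) v) / finrank ℚ K) + C) * finrank ℚ K =
        κ * wt (fun v => Rd (fun i => (P i).eval s) v) + C * finrank ℚ K := by
      field_simp
    rw [e]
    linarith
  rcases le_or_gt 0 κ with h1 | h1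
  · exact key κ h1 le_rfl
  · have h2 := key 0 le_rfl h1.le
    rw [zero_mul] at h2
    have h3 : (1 : ℝ) ≤ degree P := by exact_mod_cast hD
    linarith

omit [NumberField K] in
lemma aeval_mul {L : Type} [Field L] [Algebra K L] {n e : ℕ} {G : MvPolynomial (Fin n) K}
    (hG : G.IsHomogeneous e) (g : L) (w : Fin n → L) :
    MvPolynomial.aeval (fun i => g * w i) G = g ^ e * MvPolynomial.aeval w G := by
  rw [MvPolynomial.aeval_def, MvPolynomial.aeval_def, MvPolynomial.eval₂_eq',
    MvPolynomial.eval₂_eq', Finset.mul_sum]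
  refine Finset.sum_congr rfl fun d hd => ?_
  have h1 : ∑ i, d i = e := by
    have h2 := hG (MvPolynomial.mem_support_iff.1 hd)
    rw [Finsupp.weight_apply, Finsupp.sum_fintype _ _ (fun i => by simp)] at h2
    simpa using h2
  have h3 : ∏ i, (g * w i) ^ d i = g ^ e * ∏ i, w i ^ d i := by
    simp only [mul_pow]
    rw [Finset.prod_mul_distrib, Finset.prod_pow_eq_pow_sum, h1]
  rw [h3]
  ring

/-- from `K` to `k(t)` -/
lemma transfer {k : Type} [Field k] [Algebra K k]
    (hk : ∀ s : Finset k, Nonempty (Algebra.adjoin K (s : Set k) →ₐ[K] K))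
    (n : ℕ) (hn : 0 < n) (κ C : ℝ) (𝒢 : Set (MvPolynomial (Fin n) K))
    (hhom : ∀ G ∈ 𝒢, ∃ d, G.IsHomogeneous d)
    (h : ∀ z : Fin n → K, (∀ i, z i ≠ 0) → ∑ i, z i = 0 →
      (∃ G ∈ 𝒢, MvPolynomial.eval z G ≠ 0) → ht z ≤ κ * rad z + C)
    (z : Fin n → RatFunc k) (hz : ∀ i, z i ≠ 0) (hs : ∑ i, z i = 0)
    (hG : ∃ G ∈ 𝒢, MvPolynomial.aeval z G ≠ 0) :
    0 ≤ radFF z ∧ (htFF z = 0 ∨ (1 ≤ htFF z ∧ 2 ≤ radFF z ∧
      (htFF z : ℝ) ≤ κ * ((radFF z : ℝ) - 2))) := by
  classical
  obtain ⟨G, hGm, hGz⟩ := hG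
  obtain ⟨e, he⟩ := hhom G hGm
  obtain ⟨g, P, hg, hzP, hcop, h1, h2⟩ := FFC.main ffa ffb k n hn z hz
  rw [htFF_eq, radFF_eq, h1, h2]
  have hP0 : ∀ i, P i ≠ 0 := by
    intro i hi
    apply hz i
    rw [hzP i, hi, map_zero, mul_zero]
  have hinj : Function.Injective (algebraMap k[X] (RatFunc k)) :=
    FaithfulSMul.algebraMap_injective _ _
  have hsum : ∑ i, P i = 0 := by
    apply hinj
    rw [map_sum, map_zero]
    have : g * ∑ i, algebraMap k[X] (RatFunc k) (P i) = 0 := by
      rw [Finset.mul_sum, ← hs]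
      exact Finset.sum_congr rfl fun i _ => (hzP i).symm
    exact (mul_eq_zero.1 this).resolve_left hg
  have hQz : MvPolynomial.aeval z G =
      g ^ e * algebraMap k[X] (RatFunc k) (MvPolynomial.aeval P G) := by
    have e1 : z = fun i => g * algebraMap k[X] (RatFunc k) (P i) := by
      funext i
      exact hzP i
    rw [e1, aeval_mul he]
    congr 1
    exact MvPolynomial.aeval_algebraMap_apply (B := RatFunc k) P G
  have hQ0 : MvPolynomial.aeval P G ≠ 0 := by
    intro h
    apply hGz
    rw [hQz, h, map_zero, mul_zero]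
  obtain ⟨P', hP'0, hP'c, hP's, hP'G, hP'D, hP'q⟩ := spc hk P hP0 hcop hsum G hQ0
  refine ⟨by positivity, ?_⟩
  rcases Nat.eq_zero_or_pos (dgn P) with hD | hD
  · left
    exact_mod_cast hD
  · right
    have hD' : 1 ≤ dgn P' := by rw [hP'D]; exact hD
    have hq2 := two_le P' hP'0 hP'c hD'
    refine ⟨by exact_mod_cast hD, by exact_mod_cast hq2.trans hP'q, ?_⟩
    have := exponent P' hP'0 hP'c hD' κ C {s : K | (MvPolynomial.aeval P' G).eval s = 0} (by
      refine ((MvPolynomial.aeval P' G).roots.toFinset.finite_toSet).subset fun x hx => ?_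
      rw [Finset.mem_coe, Multiset.mem_toFinset, mem_roots hP'G]
      exact hx) (fun s hsE hPs => by
      refine h _ hPs ?_ ⟨G, hGm, ?_⟩
      · rw [← eval_finset_sum, hP's, eval_zero]
      · intro h
        apply hsE
        show (MvPolynomial.aeval P' G).eval s = 0
        rw [← h]
        have e1 := MvPolynomial.map_aeval P' (evalRingHom s) G
        have e2 : (evalRingHom s).comp (algebraMap K K[X]) = RingHom.id K := by
          ext x
          simp
        rw [e2] at e1
        exact e1)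
    rw [degree_eq, cusps_eq, hP'D] at this
    have c1 : (2 : ℝ) ≤ ptn P' := by exact_mod_cast hq2
    have c2 : ((ptn P' : ℕ) : ℝ) ≤ (ptn P : ℕ) := by exact_mod_cast hP'q
    have c3 : (1 : ℝ) ≤ dgn P := by exact_mod_cast hD
    have c4 : 0 < κ := by
      by_contra hκ
      have := mul_nonpos_of_nonpos_of_nonneg (not_lt.1 hκ) (show (0 : ℝ) ≤ (ptn P' : ℝ) - 2 by
        linarith)
      linarith
    have c5 := mul_le_mul_of_nonneg_left (show (ptn P' : ℝ) - 2 ≤ (ptn P : ℝ) - 2 by linarith)
      c4.le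
    push_cast
    linarith

lemma q1 {k : Type} [Field k] [Algebra K k]
    (hk : ∀ s : Finset k, Nonempty (Algebra.adjoin K (s : Set k) →ₐ[K] K))
    (n : ℕ) (hn : 0 < n) (ε : ℝ) (hε : 0 < ε) (h : Q1NumberField K n ε) :
    Q1FunctionField k n ε := by
  obtain ⟨𝒢, hhom, ⟨G0, hG0, z0, hs0, hz0⟩, C, hC⟩ := h
  refine ⟨(MvPolynomial.map (algebraMap K (RatFunc k))) '' 𝒢, ?_, ?_, 1, ?_⟩
  · rintro _ ⟨G, hG, rfl⟩
    obtain ⟨d, hd⟩ := hhom G hG
    exact ⟨d, hd.map _⟩
  · refine ⟨_, ⟨G0, hG0, rfl⟩, fun i => algebraMap K (RatFunc k) (z0 i), ?_, ?_⟩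
    · rw [← map_sum, hs0, map_zero]
    · rw [MvPolynomial.eval_map, ← MvPolynomial.aeval_def]
      have e : MvPolynomial.aeval (fun i => algebraMap K (RatFunc k) (z0 i)) G0 =
          algebraMap K (RatFunc k) (MvPolynomial.aeval z0 G0) :=
        MvPolynomial.aeval_algebraMap_apply (B := RatFunc k) z0 G0
      rw [e]
      intro h
      apply hz0
      have h2 := (_root_.map_eq_zero (algebraMap K (RatFunc k))).1 h
      rwa [MvPolynomial.aeval_eq_eval] at h2
  · rintro z hz hs ⟨_, ⟨G, hG, rfl⟩, hGz⟩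
    rw [MvPolynomial.eval_map, ← MvPolynomial.aeval_def] at hGz
    obtain ⟨h0, h1⟩ := transfer hk n hn (1 + ε) C 𝒢 hhom (fun z a b c => (hC z a b c).le) z hz hs
      ⟨G, hG, hGz⟩
    have h0' : (0 : ℝ) ≤ radFF z := by exact_mod_cast h0
    have h4 : 0 ≤ (1 + ε) * (radFF z : ℝ) := mul_nonneg (by linarith) h0'
    rcases h1 with h1 | ⟨h1, h2, h3⟩
    · rw [h1]
      push_cast
      linarith
    · refine lt_of_le_of_lt h3 ?_
      rw [mul_sub]
      linarith

/-- `OnCurve` for `K = F` and the exponents above `D / (q - 2)` -/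
lemma exact (h : AbcThree K) {n : ℕ} (P : Fin n → K[X]) (h0 : ∀ i, P i ≠ 0)
    (hcop : Ideal.span (Set.range P) = ⊤) (hq : 3 ≤ cusps P) (κ : ℝ) :
    OnCurve K P κ ↔ (degree P : ℝ) / ((cusps P : ℝ) - 2) ≤ κ := by
  classical
  have hq3 : (0 : ℝ) < (cusps P : ℝ) - 2 := by
    have : (3 : ℝ) ≤ cusps P := by exact_mod_cast hq
    linarith
  constructor
  · intro hκ
    rcases Nat.eq_zero_or_pos (degree P) with hD | hD
    · -- constant coordinates have no cusps
      exfalso
      have h1 : ∀ i, (P i).natDegree = 0 := fun i => Nat.le_zero.1 (by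
        rw [← hD]
        exact Finset.le_sup (f := fun i => (P i).natDegree) (Finset.mem_univ i))
      have h2 : (∏ i, P i) ≠ 0 := Finset.prod_ne_zero_iff.2 fun i _ => h0 i
      have h3 := natDegree_le_of_dvd (UniqueFactorizationMonoid.radical_dvd_self
        (a := ∏ i, P i)) h2
      rw [natDegree_prod _ _ fun i _ => h0 i] at h3
      simp only [h1, Finset.sum_const_zero] at h3
      unfold cusps at hq
      rw [if_pos (fun i j => by rw [h1, h1])] at hq
      omega
    · rw [div_le_iff₀ hq3]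
      apply le_of_forall_pos_le_add
      intro δ hδ
      obtain ⟨C, hC⟩ := hκ (δ / ((cusps P : ℝ) - 2)) (by positivity)
      have := exponent P h0 hcop hD (κ + δ / ((cusps P : ℝ) - 2)) C ∅ Set.finite_empty
        (fun s _ hPs => hC s hPs)
      rw [add_mul, div_mul_cancel₀ _ hq3.ne'] at this
      exact this
  · intro hκ ε hε
    obtain ⟨C, hC⟩ := forward K h P h0 hcop hq ε hε
    refine ⟨C, fun s hs => (hC s hs).trans ?_⟩
    have hr : 0 ≤ rad (fun i => (P i).eval (algebraMap K K s)) := by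
      rw [rad_eq]
      exact div_nonneg (wt_nonneg _) (fin_pos K).le
    have := mul_le_mul_of_nonneg_right hκ hr
    linarith

/-- fewer terms -/
lemma fewer {m : ℕ} (hm : 1 ≤ m) (ε : ℝ) (hε : 0 < ε) (h : Q1NumberField K (m + 2) ε) :
    Q1NumberField K (m + 1) ε := by
  obtain ⟨𝒢, hhom, ⟨G0, hG0, w, hw, hGw⟩, C, hC⟩ := h
  obtain ⟨μ, z0, h0, h1, hz0, hGz0⟩ := exists_mu hm G0 w hw hGw
  obtain ⟨C1, hC1⟩ := spl_height (m := m) h0
  obtain ⟨C2, hC2⟩ := spl_rad (m := m) h0 h1
  have d := fin_pos K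
  refine ⟨(fun G => MvPolynomial.aeval (splF μ) G) '' 𝒢, ?_, ⟨_, ⟨G0, hG0, rfl⟩, z0, hz0, ?_⟩,
    C + (C1 + (1 + ε) * C2) / finrank ℚ K, ?_⟩
  · rintro _ ⟨G, hG, rfl⟩
    obtain ⟨e, he⟩ := hhom G hG
    exact ⟨_, he.aeval (splF μ) fun j => splF_hom μ j⟩
  · show MvPolynomial.eval z0 (MvPolynomial.aeval (splF μ) G0) ≠ 0
    rw [eval_spl]
    exact hGz0
  · rintro z hz hs ⟨_, ⟨G, hG, rfl⟩, hGz⟩
    have hGz' : MvPolynomial.eval (spl μ z) G ≠ 0 := by
      rw [← eval_spl]
      exact hGz
    have a := hC (spl μ z) (spl_ne h0 h1 hz) (by rw [spl_sum, hs]) ⟨G, hG, hGz'⟩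
    have b := hC1 z
    have c := mul_le_mul_of_nonneg_left (hC2 z hz) (show 0 ≤ 1 + ε by linarith)
    unfold ht at a ⊢
    rw [rad_eq] at a ⊢
    have e1 : (1 + ε) * (wt (fun v => Rd (spl μ z) v) / (finrank ℚ K : ℝ)) + C =
        ((1 + ε) * wt (fun v => Rd (spl μ z) v) + C * finrank ℚ K) / finrank ℚ K := by
      field_simp
    have e2 : (1 + ε) * (wt (fun v => Rd z v) / (finrank ℚ K : ℝ)) +
        (C + (C1 + (1 + ε) * C2) / finrank ℚ K) =
        ((1 + ε) * wt (fun v => Rd z v) + C * finrank ℚ K + C1 + (1 + ε) * C2) /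
          finrank ℚ K := by
      field_simp
      ring
    rw [e1, div_lt_div_iff_of_pos_right d] at a
    rw [e2, div_lt_div_iff_of_pos_right d]
    linarith

lemma abc_of (h : ∀ ε : ℝ, 0 < ε → Q1NumberField K 3 ε) : AbcThree K := by
  intro ε hε
  obtain ⟨𝒢, hhom, ⟨G0, hG0, w, hw, hGw⟩, C, hC⟩ := h ε hε
  obtain ⟨e, he⟩ := hhom G0 hG0
  obtain ⟨E, hE⟩ := three_z G0 e he w hw hGw
  obtain ⟨B, hB⟩ := (E.finite_toSet.image (fun x : K => ht ![x, -1 - x, 1])).bddAbove
  refine ⟨max C B, fun z hz hs => ?_⟩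
  have hr : 0 ≤ (1 + ε) * rad z := by
    rw [rad_eq]
    exact mul_nonneg (by linarith) (div_nonneg (wt_nonneg _) (fin_pos K).le)
  by_cases hG : MvPolynomial.eval z G0 = 0
  · obtain ⟨x, hx, hzx⟩ := hE z (hz 2) hs hG
    have h1 : ht z = ht ![x, -1 - x, 1] := by
      rw [hzx]
      unfold ht
      rw [logHeight_smul_eq_logHeight _ (hz 2)]
    have h2 : ht ![x, -1 - x, 1] ≤ B := hB ⟨x, hx, rfl⟩
    have h3 := le_max_right C B
    linarith
  · have a := hC z hz hs ⟨G0, hG0, hG⟩
    have h3 := le_max_left C B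
    linarith

lemma of_abc (h : AbcThree K) (ε : ℝ) (hε : 0 < ε) : Q1NumberField K 3 ε := by
  obtain ⟨C, hC⟩ := h ε hε
  refine ⟨{1}, ?_, ⟨1, rfl, 0, by simp, by simp⟩, C + 1, ?_⟩
  · rintro G hG
    rw [Set.mem_singleton_iff] at hG
    rw [hG]
    exact ⟨0, MvPolynomial.isHomogeneous_one _ _⟩
  · intro z hz hs _
    have := hC z hz hs
    linarith

/-- Let `F` be a number field.

(0) Q1 for `F` and `n + 1` implies Q1 for `F` and `n` (for the same `ε`), and Q1 for `F` and `n = 3`
is the abc conjecture for `F`. So Q1 for `F` and any `n` implies what follows from `n = 3` below.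

(1) Let `k` be a field between `F` and a purely transcendental extension of `F` (for instance `k = F`).
Q1 for `F` implies Q1 for the function field `k(t)` (for the same `n` and `ε`).

(2) The exceptional set can be kept, and the inequality becomes `h ≤ κ (rad - 2)`: if
`h ≤ κ rad + C` holds for the points of the hyperplane over `F` without zero coordinates outside a
closed set, then `h ≤ κ (rad - 2)` for all nonconstant points over `k(t)` outside the same set.

(3) Without hypothesis: for a map of degree `D ≥ 1` from the projective line to `ℙ^(n-1)` over `F`,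
some coordinate vanishes at `q ≥ 2` points of the line, and if `h ≤ κ rad + C` holds for all but
finitely many parameters in `F`, then `D ≤ κ (q - 2)`.

(4) The abc conjecture for `F` (the case `n = 3` of Q1) is equivalent to the inequality with the
exponent `D / (q - 2)` for all `n`, all `K / F` and all rational curves over `K` in the hyperplane
with `q ≥ 3`, at the parameters in `F`.

(5) The abc conjecture for `F` implies this also for the curves outside the hyperplane, and for
`K = F` the exponent `D / (q - 2)` is the exact one. -/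
theorem result (F : Type) [Field F] [NumberField F] :
    ((∀ n : ℕ, 3 ≤ n → ∀ ε : ℝ, 0 < ε → Q1NumberField F (n + 1) ε → Q1NumberField F n ε) ∧
      ((∀ ε : ℝ, 0 < ε → Q1NumberField F 3 ε) ↔ AbcThree F)) ∧
    (∀ (σ k : Type) [Field k] [Algebra F k], Nonempty (k →ₐ[F] FractionRing (MvPolynomial σ F)) →
      ∀ n : ℕ, 3 ≤ n → ∀ ε : ℝ, 0 < ε → Q1NumberField F n ε → Q1FunctionField k n ε) ∧
    (∀ (σ k : Type) [Field k] [Algebra F k], Nonempty (k →ₐ[F] FractionRing (MvPolynomial σ F)) →
      ∀ n : ℕ, 3 ≤ n → ∀ (κ C : ℝ) (𝒢 : Set (MvPolynomial (Fin n) F)),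
      (∀ G ∈ 𝒢, ∃ d, G.IsHomogeneous d) →
      (∀ z : Fin n → F, (∀ i, z i ≠ 0) → ∑ i, z i = 0 →
        (∃ G ∈ 𝒢, MvPolynomial.eval z G ≠ 0) → ht z ≤ κ * rad z + C) →
      ∀ z : Fin n → RatFunc k, (∀ i, z i ≠ 0) → ∑ i, z i = 0 →
        (∃ G ∈ 𝒢, MvPolynomial.aeval z G ≠ 0) →
        htFF z = 0 ∨ (htFF z : ℝ) ≤ κ * ((radFF z : ℝ) - 2)) ∧
    (∀ (n : ℕ) (P : Fin n → F[X]), (∀ i, P i ≠ 0) → Ideal.span (Set.range P) = ⊤ →
      1 ≤ degree P → 2 ≤ cusps P ∧ ∀ (κ C : ℝ) (E : Set F), E.Finite →
        (∀ s : F, s ∉ E → (∀ i, (P i).eval s ≠ 0) →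
          ht (fun i => (P i).eval s) ≤ κ * rad (fun i => (P i).eval s) + C) →
        (degree P : ℝ) ≤ κ * ((cusps P : ℝ) - 2)) ∧
    (AbcThree F ↔
      ∀ (K : Type) [Field K] [NumberField K] [Algebra F K] (n : ℕ) (P : Fin n → K[X]),
        (∀ i, P i ≠ 0) → ∑ i, P i = 0 → Ideal.span (Set.range P) = ⊤ → 3 ≤ cusps P →
        OnCurve F P ((degree P : ℝ) / ((cusps P : ℝ) - 2))) ∧
    (AbcThree F →
      (∀ (K : Type) [Field K] [NumberField K] [Algebra F K] (n : ℕ) (P : Fin n → K[X]),
        (∀ i, P i ≠ 0) → Ideal.span (Set.range P) = ⊤ → 3 ≤ cusps P →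
        OnCurve F P ((degree P : ℝ) / ((cusps P : ℝ) - 2))) ∧
      ∀ (n : ℕ) (P : Fin n → F[X]), (∀ i, P i ≠ 0) → Ideal.span (Set.range P) = ⊤ →
        3 ≤ cusps P → ∀ κ : ℝ, OnCurve F P κ ↔ (degree P : ℝ) / ((cusps P : ℝ) - 2) ≤ κ) := by
  refine ⟨⟨?_, abc_of, of_abc⟩, ?_, ?_, ?_, ⟨?_, ?_⟩, ?_⟩
  · intro n hn ε hε h
    obtain ⟨m, rfl⟩ : ∃ m, n = m + 1 := ⟨n - 1, by omega⟩
    exact fewer (by omega) ε hε h
  · rintro σ k _ _ ⟨ι⟩ n hn ε hε h
    exact q1 (fun s => inst F σ k ι s) n (by omega) ε hε h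
  · rintro σ k _ _ ⟨ι⟩ n hn κ C 𝒢 hhom h z hz hs hG
    rcases (transfer (fun s => inst F σ k ι s) n (by omega) κ C 𝒢 hhom h z hz hs hG).2 with
      h1 | h1
    · exact Or.inl h1
    · exact Or.inr h1.2.2
  · intro n P h0 hcop hD
    exact ⟨two_le P h0 hcop hD, fun κ C E hE h => exponent P h0 hcop hD κ C E hE h⟩
  · intro h K _ _ _ n P h0 _ hcop hq
    exact forward K h P h0 hcop hq
  · intro h
    apply backward
    have a := h F 3 (line3 F) (by
      intro i
      unfold line3
      fin_cases i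
      · exact X_ne_zero
      · show (1 - X : F[X]) ≠ 0
        intro h
        have h1 : (X : F[X]) = 1 := by linear_combination -h
        have h2 := congrArg natDegree h1
        rw [natDegree_X, natDegree_one] at h2
        exact one_ne_zero h2
      · show (-1 : F[X]) ≠ 0
        exact neg_ne_zero.2 one_ne_zero) (by
      unfold line3
      rw [Fin.sum_univ_three]
      show (X : F[X]) + (1 - X) + -1 = 0
      ring) (by
      rw [Ideal.eq_top_iff_one]
      have h1 : (-1 : F[X]) ∈ Ideal.span (Set.range (line3 F)) :=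
        Ideal.subset_span ⟨2, rfl⟩
      have h2 := Ideal.neg_mem_iff _ |>.2 h1
      rwa [neg_neg] at h2) (by rw [line3_cusps])
    rw [line3_deg, line3_cusps] at a
    norm_num at a
    exact a
  · intro h
    refine ⟨?_, fun n P h0 hcop hq κ => exact h P h0 hcop hq κ⟩
    intro K _ _ _ n P h0 hcop hq
    exact forward K h P h0 hcop hq

end Pool.Agent.Results.MP_7475bd_nt.NumberFieldToFunctionField
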